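import Mathlib
import Pool.Agent.Y854.GM.Mean2
import Pool.Agent.Y854.GM.Log

/-!
# Sets of logarithmically decaying density along sparse sequences

If at most `C X (log X) ^ (-δ)` of the `t ≤ X` are in a set then, for all `α > 0` outside a set of
dimension smaller than one, at most `C' N (log N) ^ (-δ)` of the `n ≤ N` are such that `⌊α n ^ c⌋` is in
the set; for countably many sets at once.
-/

set_option autoImplicit false

open Finset Filter Topology

namespace Pool.Agent.V11109.DEC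

open Pool.Agent.Y854.GM
open Pool.Agent.Y854.PS
open Pool.Agent.Y854.ST (sum_wt_up sum_wt_low Ioc_zero wsum)

/-- powers with an exponent less than one -/
lemma pow_small {s K ε : ℝ} (δ : ℝ) (hs : s < 1) (hε : 0 < ε) :
    ∃ N1 : ℕ, ∀ N : ℕ, N1 ≤ N → K * (N : ℝ) ^ s ≤ ε * N * (Real.log N) ^ (-δ) := by
  have h1 := isLittleO_log_rpow_rpow_atTop (s := 1 - s) δ (by linarith)
  have h2 := h1.bound (c := ε / (|K| + 1)) (by positivity)
  obtain ⟨M, hM⟩ := (tendsto_natCast_atTop_atTop.eventually h2).exists_forall_of_atTop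
  refine ⟨max M 3, fun N hN => ?_⟩
  have h3 := hM N ((le_max_left _ _).trans hN)
  have hN3 : 3 ≤ N := (le_max_right _ _).trans hN
  have hl := one_le_log3 hN3
  have hNp : (0 : ℝ) < N := by
    have : 0 < N := by omega
    exact_mod_cast this
  have hld : 0 < (Real.log N) ^ δ := Real.rpow_pos_of_pos (by linarith) _
  rw [Real.norm_of_nonneg hld.le, Real.norm_of_nonneg (by positivity), div_mul_eq_mul_div,
    le_div_iff₀ (by positivity)] at h3
  rw [Real.rpow_neg (by linarith), ← div_eq_mul_inv, le_div_iff₀ hld]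
  have h4 : (N : ℝ) = (N : ℝ) ^ (1 - s) * (N : ℝ) ^ s := by
    rw [← Real.rpow_add hNp]
    simp
  have h5 : 0 < (N : ℝ) ^ s := by positivity
  have h6 : K * (Real.log N) ^ δ ≤ ε * (N : ℝ) ^ (1 - s) := by
    have h7 : K * (Real.log N) ^ δ ≤ (Real.log N) ^ δ * (|K| + 1) := by
      have := le_abs_self K
      nlinarith
    linarith
  calc K * (N : ℝ) ^ s * (Real.log N) ^ δ = (K * (Real.log N) ^ δ) * (N : ℝ) ^ s := by ring
    _ ≤ (ε * (N : ℝ) ^ (1 - s)) * (N : ℝ) ^ s := mul_le_mul_of_nonneg_right h6 h5.le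
    _ = ε * ((N : ℝ) ^ (1 - s) * (N : ℝ) ^ s) := by ring
    _ = ε * N := by rw [← h4]

/-- **Upper bounds.** -/
theorem seq_upper_dec {α c κ δ : ℝ} (hα : 0 < α) (hc : 1 < c) (hκ : 0 < κ) (hδ : 0 ≤ δ) (u : ℕ → ℝ)
    (hu0 : ∀ m, 0 ≤ u m) {F : ℝ} (hF : 0 ≤ F) (huF : ∀ m, u m ≤ F)
    {C : ℝ} (hC : 0 ≤ C) (X0 : ℕ)
    (hu : ∀ X : ℕ, X0 ≤ X → ∑ m ∈ Ioc 0 X, u m ≤ C * X * (Real.log X) ^ (-δ))
    (N0 : ℕ) (hlaw : ∀ N : ℕ, N0 ≤ N →
      |∑ n ∈ Icc 1 N, u ⌊α * (n : ℝ) ^ c⌋₊ -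
        α ^ (-(1 / c)) * ∑ t ∈ Ioc 0 ⌊α * (N : ℝ) ^ c⌋₊, wt c t * u t| ≤ (N : ℝ) ^ (1 - κ)) (ε : ℝ) (hε : 0 < ε) :
    ∃ N1 : ℕ, ∀ N : ℕ, N1 ≤ N →
      ∑ n ∈ Icc 1 N, u ⌊α * (n : ℝ) ^ c⌋₊ ≤ ((2 : ℝ) ^ δ * C + ε) * N * (Real.log N) ^ (-δ) := by
  classical
  set a := α ^ (-(1 / c)) with ha
  have ha0 : 0 < a := Real.rpow_pos_of_pos hα _
  have hc0 : 0 < c := by linarith
  obtain ⟨N2, hN2⟩ := last_ge hα hc
  obtain ⟨N3, hN3⟩ := pow_small (s := 1 - κ) (K := 1) δ (by linarith) (show 0 < ε / 2 by positivity)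
  obtain ⟨N4, hN4⟩ := pow_small (s := 1 / 2) (K := a * (F * α ^ (1 / (2 * c)))) δ (by norm_num) (show 0 < ε / 2 by positivity)
  refine ⟨max (max (max N0 N2) (max N3 N4)) ((max X0 3 + 1) ^ 2), fun N hN => ?_⟩
  have g0 : N0 ≤ N := (((le_max_left _ _).trans (le_max_left _ _)).trans (le_max_left _ _)).trans hN
  have g2 : N2 ≤ N := (((le_max_right _ _).trans (le_max_left _ _)).trans (le_max_left _ _)).trans hN
  have g3 : N3 ≤ N := (((le_max_left _ _).trans (le_max_right _ _)).trans (le_max_left _ _)).trans hN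
  have g4 : N4 ≤ N := (((le_max_right _ _).trans (le_max_right _ _)).trans (le_max_left _ _)).trans hN
  have g5 : (max X0 3 + 1) ^ 2 ≤ N := (le_max_right _ _).trans hN
  have hm3 : 3 ≤ max X0 3 := le_max_right _ _
  have g6 : 3 ≤ N := by nlinarith
  have hNp : (3 : ℝ) ≤ N := by exact_mod_cast g6
  have hlN := one_le_log3 g6
  have h1 := hlaw N g0
  have hws := wsum hα hc N
  set X : ℕ := ⌊α * (N : ℝ) ^ c⌋₊ with hX
  have hms : ms α c N = X := rfl
  rw [hms] at hws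
  have hXN : N ≤ X := hN2 N g2
  have hX3 : 3 ≤ X := g6.trans hXN
  have hXp : (3 : ℝ) ≤ X := by exact_mod_cast hX3
  have hlX := one_le_log3 hX3
  set Y : ℕ := Nat.sqrt X with hY
  have hYX : Y ^ 2 ≤ X := Nat.sqrt_le' X
  have hYX' : X < (Y + 1) ^ 2 := Nat.lt_succ_sqrt' X
  have hY0 : max X0 3 ≤ Y := by
    by_contra hcon
    push Not at hcon
    have : (Y + 1) ^ 2 ≤ (max X0 3 + 1) ^ 2 := Nat.pow_le_pow_left (by omega) 2
    omega
  have hYX0 : X0 ≤ Y := (le_max_left _ _).trans hY0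
  have hY3 : 3 ≤ Y := (le_max_right _ _).trans hY0
  have hYleX : Y ≤ X := by nlinarith
  -- the small terms
  set g : ℕ → ℝ := fun m => if Y < m then u m else 0 with hg
  have hsplit : ∑ t ∈ Ioc 0 X, wt c t * u t = ∑ t ∈ Ioc 0 Y, wt c t * u t + ∑ t ∈ Ioc 0 X, wt c t * g t := by
    have h2 : ∑ t ∈ Ioc 0 X, wt c t * g t = ∑ t ∈ Ioc Y X, wt c t * u t := by
      have h3 : ∀ t ∈ Ioc 0 X, wt c t * g t = if Y < t then wt c t * u t else 0 := by
        intro t _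
        rw [hg]
        simp only
        split_ifs <;> simp
      rw [Finset.sum_congr rfl h3, ← Finset.sum_filter]
      apply Finset.sum_congr
      · ext t
        rw [mem_filter, mem_Ioc, mem_Ioc]
        omega
      · intro _ _; rfl
    rw [h2, Finset.sum_Ioc_consecutive _ (Nat.zero_le _) hYleX]
  have hsmall : ∑ t ∈ Ioc 0 Y, wt c t * u t ≤ F * α ^ (1 / (2 * c)) * (N : ℝ) ^ ((1 : ℝ) / 2) := by
    have h2 : ∑ t ∈ Ioc 0 Y, wt c t * u t ≤ F * ∑ t ∈ Ioc 0 Y, wt c t := by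
      rw [Finset.mul_sum]
      apply Finset.sum_le_sum
      intro t _
      rw [mul_comm F]
      exact mul_le_mul_of_nonneg_left (huF t) (wt_nonneg hc t)
    have h3 := sum_wt_up hc Y
    have h4 : (Y : ℝ) ^ (1 / c) ≤ α ^ (1 / (2 * c)) * (N : ℝ) ^ ((1 : ℝ) / 2) := by
      have h5 : ((Y : ℝ) ^ (2 : ℝ)) ≤ α * (N : ℝ) ^ c := by
        have h6 : (X : ℝ) ≤ α * (N : ℝ) ^ c := Nat.floor_le (by positivity)
        have h7 : ((Y ^ 2 : ℕ) : ℝ) ≤ X := by exact_mod_cast hYX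
        push_cast at h7
        have h8 : (Y : ℝ) ^ (2 : ℝ) = (Y : ℝ) ^ (2 : ℕ) := by
          rw [← Real.rpow_natCast]
          norm_num
        rw [h8]
        linarith
      calc (Y : ℝ) ^ (1 / c) = ((Y : ℝ) ^ (2 : ℝ)) ^ (1 / (2 * c)) := by
            rw [← Real.rpow_mul (Nat.cast_nonneg _)]
            congr 1
            field_simp
        _ ≤ (α * (N : ℝ) ^ c) ^ (1 / (2 * c)) := Real.rpow_le_rpow (by positivity) h5 (by positivity)
        _ = α ^ (1 / (2 * c)) * (N : ℝ) ^ ((1 : ℝ) / 2) := by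
            rw [Real.mul_rpow hα.le (by positivity), ← Real.rpow_mul (by linarith)]
            congr 2
            field_simp
    calc ∑ t ∈ Ioc 0 Y, wt c t * u t ≤ F * ∑ t ∈ Ioc 0 Y, wt c t := h2
      _ ≤ F * (α ^ (1 / (2 * c)) * (N : ℝ) ^ ((1 : ℝ) / 2)) := mul_le_mul_of_nonneg_left (h3.trans h4) hF
      _ = _ := by ring
  have hrX : 0 < (Real.log X) ^ (-δ) := Real.rpow_pos_of_pos (by linarith) _
  have hlarge : ∑ t ∈ Ioc 0 X, wt c t * g t ≤
      ((2 : ℝ) ^ δ * C * (Real.log X) ^ (-δ)) * ∑ t ∈ Ioc 0 X, wt c t := by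
    apply w_upper hc g X
    intro Z hZ
    rcases le_or_gt Z Y with hZY | hZY
    · have h2 : ∑ m ∈ Ioc 0 Z, g m = 0 := by
        apply Finset.sum_eq_zero
        intro m hm
        rw [mem_Ioc] at hm
        rw [hg]
        simp only
        rw [if_neg (by omega)]
      rw [h2]
      positivity
    · have h2 : ∑ m ∈ Ioc 0 Z, g m ≤ ∑ m ∈ Ioc 0 Z, u m := by
        apply Finset.sum_le_sum
        intro m _
        rw [hg]
        simp only
        split_ifs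
        · exact le_rfl
        · exact hu0 m
      have h3 := hu Z (by omega)
      have hZ3 : 3 ≤ Z := by omega
      have hZp : (3 : ℝ) ≤ Z := by exact_mod_cast hZ3
      have hlZ := one_le_log3 hZ3
      have h4 : Real.log X ≤ 2 * Real.log Z := by
        have h5 : (X : ℝ) ≤ (Z : ℝ) ^ 2 := by
          have : X ≤ Z ^ 2 := by
            have h6 : (Y + 1) ^ 2 ≤ Z ^ 2 := Nat.pow_le_pow_left (by omega) 2
            omega
          exact_mod_cast this
        have h6 := Real.log_le_log (by linarith) h5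
        rw [Real.log_pow] at h6
        exact_mod_cast h6
      have h5 : (Real.log Z) ^ (-δ) ≤ (2 : ℝ) ^ δ * (Real.log X) ^ (-δ) := by
        have h6 : (Real.log Z) ^ (-δ) ≤ (Real.log X / 2) ^ (-δ) :=
          Real.rpow_le_rpow_of_nonpos (by linarith) (by linarith) (by linarith)
        refine h6.trans (le_of_eq ?_)
        rw [Real.div_rpow (by linarith) (by norm_num), Real.rpow_neg (by norm_num : (0 : ℝ) ≤ 2),
          div_inv_eq_mul, mul_comm]
      calc ∑ m ∈ Ioc 0 Z, g m ≤ C * Z * (Real.log Z) ^ (-δ) := h2.trans h3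
        _ ≤ C * Z * ((2 : ℝ) ^ δ * (Real.log X) ^ (-δ)) :=
            mul_le_mul_of_nonneg_left h5 (by positivity)
        _ = _ := by ring
  have hlogs : Real.log N ≤ Real.log X := Real.log_le_log (by linarith) (by exact_mod_cast hXN)
  have hrates : (Real.log X) ^ (-δ) ≤ (Real.log N) ^ (-δ) :=
    Real.rpow_le_rpow_of_nonpos (by linarith) hlogs (by linarith)
  have h2 : a * ∑ t ∈ Ioc 0 X, wt c t * g t ≤ (2 : ℝ) ^ δ * C * N * (Real.log N) ^ (-δ) := by
    calc a * ∑ t ∈ Ioc 0 X, wt c t * g t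
        ≤ a * (((2 : ℝ) ^ δ * C * (Real.log X) ^ (-δ)) * ∑ t ∈ Ioc 0 X, wt c t) :=
          mul_le_mul_of_nonneg_left hlarge ha0.le
      _ = ((2 : ℝ) ^ δ * C * (Real.log X) ^ (-δ)) * (a * ∑ t ∈ Ioc 0 X, wt c t) := by ring
      _ ≤ ((2 : ℝ) ^ δ * C * (Real.log X) ^ (-δ)) * N := mul_le_mul_of_nonneg_left hws.2 (by positivity)
      _ ≤ ((2 : ℝ) ^ δ * C * (Real.log N) ^ (-δ)) * N := by
          refine mul_le_mul_of_nonneg_right ?_ (Nat.cast_nonneg _)
          exact mul_le_mul_of_nonneg_left hrates (by positivity)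
      _ = _ := by ring
  have h3 : a * ∑ t ∈ Ioc 0 Y, wt c t * u t ≤ ε / 2 * N * (Real.log N) ^ (-δ) := by
    refine le_trans ?_ (hN4 N g4)
    calc a * ∑ t ∈ Ioc 0 Y, wt c t * u t ≤ a * (F * α ^ (1 / (2 * c)) * (N : ℝ) ^ ((1 : ℝ) / 2)) :=
          mul_le_mul_of_nonneg_left hsmall ha0.le
      _ = _ := by ring
  have h4 := hN3 N g3
  rw [one_mul] at h4
  rw [abs_le] at h1
  have h5 := h1.2
  rw [hsplit, mul_add] at h5
  have h6 : ((2 : ℝ) ^ δ * C + ε) * N * (Real.log N) ^ (-δ) = (2 : ℝ) ^ δ * C * N * (Real.log N) ^ (-δ) +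
      ε / 2 * N * (Real.log N) ^ (-δ) + ε / 2 * N * (Real.log N) ^ (-δ) := by
    ring
  rw [h6]
  linarith

open Classical in
/-- the number of the `t ≤ X` with the property `F` -/
noncomputable def num (F : ℕ → Prop) (X : ℕ) : ℕ := ((Ioc 0 X).filter F).card

open Classical in
/-- the number of the `n ≤ N` for which `⌊α n ^ c⌋` has the property `F` -/
noncomputable def seqNum (c α : ℝ) (F : ℕ → Prop) (N : ℕ) : ℕ :=
  ((Icc 1 N).filter (fun n : ℕ => F ⌊α * (n : ℝ) ^ c⌋₊)).card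

open Classical in
/-- **Countably many sets at once.** -/
theorem sets_dec (c : ℝ) (hc : 1 < c) {ι : Type} [Countable ι] (P : ι → ℕ → Prop) :
    ∃ E : Set ℝ, dimH E < 1 ∧ ∀ α : ℝ, 0 < α → α ∉ E → ∀ (k : ι) (C δ : ℝ), 0 ≤ C → 0 ≤ δ →
      (∀ X : ℕ, 3 ≤ X → (num (P k) X : ℝ) ≤ C * X * (Real.log X) ^ (-δ)) →
        ∃ N1 : ℕ, ∀ N : ℕ, N1 ≤ N →
          (seqNum c α (P k) N : ℝ) ≤ ((2 : ℝ) ^ δ * C + 1) * N * (Real.log N) ^ (-δ) := by
  obtain ⟨κ, hκ, hκ1, h⟩ := mean2 c hc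
  obtain ⟨E, hE, hlaw⟩ := h (fun k t => if P k t then (1 : ℝ) else 0)
  refine ⟨E, hE, fun α hα hαE k C δ hC hδ hup => ?_⟩
  have hgrow : ∃ C : ℝ, 0 < C ∧ ∀ m : ℕ, 1 ≤ m → |(if P k m then (1 : ℝ) else 0)| ≤ C * (m : ℝ) ^ κ := by
    refine ⟨1, one_pos, fun m hm => ?_⟩
    have h1 : (1 : ℝ) ≤ (m : ℝ) ^ κ := Real.one_le_rpow (by exact_mod_cast hm) hκ.le
    split_ifs <;> simp <;> linarith
  obtain ⟨N0, hN0⟩ := hlaw α hα hαE k hgrow
  have e1 : ∀ X : ℕ, (num (P k) X : ℝ) = ∑ t ∈ Ioc 0 X, (if P k t then (1 : ℝ) else 0) := by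
    intro X
    unfold num
    rw [Finset.sum_boole]
  have e2 : ∀ N : ℕ, (seqNum c α (P k) N : ℝ) =
      ∑ n ∈ Icc 1 N, (fun t : ℕ => if P k t then (1 : ℝ) else 0) ⌊α * (n : ℝ) ^ c⌋₊ := by
    intro N
    unfold seqNum
    simp only
    rw [Finset.sum_boole]
  have hu0 : ∀ t : ℕ, 0 ≤ (if P k t then (1 : ℝ) else 0) := by
    intro t
    split_ifs <;> norm_num
  obtain ⟨N1, hN1⟩ := seq_upper_dec hα hc hκ hδ (fun t : ℕ => if P k t then (1 : ℝ) else 0) hu0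
    (F := 1) zero_le_one (fun t => by split_ifs <;> norm_num) hC 3
    (fun X hX => by rw [← e1]; exact hup X hX) N0 hN0 1 one_pos
  exact ⟨N1, fun N hN => by rw [e2]; exact hN1 N hN⟩

open Classical in
/-- comparison with the integers of absolute value at most `X` -/
lemma num_le_ncard (P : ℤ → Prop) (X : ℕ) :
    num (fun t => P (t : ℤ)) X ≤ {d : ℤ | d.natAbs ≤ X ∧ P d}.ncard := by
  have hfin : {d : ℤ | d.natAbs ≤ X ∧ P d}.Finite := by
    apply (Set.finite_Icc (-(X : ℤ)) X).subset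
    intro d hd
    have h1 : d.natAbs ≤ X := hd.1
    rw [Set.mem_Icc]
    omega
  unfold num
  rw [← Set.ncard_coe_finset]
  refine Set.ncard_le_ncard_of_injOn (fun t : ℕ => (t : ℤ)) ?_ ?_ hfin
  · intro t ht
    rw [Finset.mem_coe, Finset.mem_filter, Finset.mem_Ioc] at ht
    exact ⟨by simpa using ht.1.2, ht.2⟩
  · intro a _ b _ hab
    simpa using hab

end Pool.Agent.V11109.DEC
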