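import Mathlib
import Pool.Agent.V11109.DEC.Basic
import Pool.Agent.V11109.MOM.Conv

/-!
# Sets of integers of logarithmically decaying density along sparse sequences, squarefree terms
-/

set_option autoImplicit false

open Finset Filter Topology

namespace Pool.Agent.V11109.DEC

open Pool.Agent.Y854.GM
open Pool.Agent.V11109.MOM (cnt mem_cnt cnt_mono cnt_or)

lemma num_congr {F G : ℕ → Prop} (h : ∀ t, F t ↔ G t) (X : ℕ) : num F X = num G X := by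
  have : F = G := funext fun t => propext (h t)
  rw [this]

lemma cnt_eq (c α : ℝ) (F : ℕ → Prop) (N : ℕ) :
    cnt N (fun j => F ⌊α * (j : ℝ) ^ c⌋₊) = seqNum c α F N := rfl

open Classical in
/-- comparison with the multiples of `e` -/
lemma num_mul_le_ncard (P : ℤ → Prop) {e : ℤ} (he : e ≠ 0) (X : ℕ) :
    num (fun t => P (e * (t : ℤ))) X ≤ {d : ℤ | d.natAbs ≤ e.natAbs * X ∧ P d}.ncard := by
  have hfin : {d : ℤ | d.natAbs ≤ e.natAbs * X ∧ P d}.Finite := by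
    apply (Set.finite_Icc (-((e.natAbs * X : ℕ) : ℤ)) ((e.natAbs * X : ℕ) : ℤ)).subset
    intro d hd
    have h1 : d.natAbs ≤ e.natAbs * X := hd.1
    rw [Set.mem_Icc]
    omega
  unfold num
  rw [← Set.ncard_coe_finset]
  refine Set.ncard_le_ncard_of_injOn (fun t : ℕ => e * (t : ℤ)) ?_ ?_ hfin
  · intro t ht
    rw [Finset.mem_coe, Finset.mem_filter, Finset.mem_Ioc] at ht
    refine ⟨?_, ht.2⟩
    rw [Int.natAbs_mul, Int.natAbs_natCast]
    exact Nat.mul_le_mul_left _ ht.1.2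
  · intro a _ b _ hab
    have h1 : e * (a : ℤ) = e * (b : ℤ) := hab
    exact_mod_cast mul_left_cancel₀ he h1

/-- **Sets of integers along the multiples of the sequence.** -/
theorem int_dec (c : ℝ) (hc : 1 < c) {ι : Type} [Countable ι] (P : ι → ℤ → Prop) :
    ∃ E : Set ℝ, dimH E < 1 ∧ ∀ (k : ι) (C δ : ℝ), 0 ≤ δ →
      (∀ X : ℕ, 3 ≤ X → ({d : ℤ | d.natAbs ≤ X ∧ P k d}.ncard : ℝ) ≤ C * X * (Real.log X) ^ (-δ)) →
      ∀ e : ℤ, e ≠ 0 → ∃ C' : ℝ, ∀ α : ℝ, 0 < α → α ∉ E → ∃ N₀ : ℕ, ∀ N : ℕ, N₀ ≤ N →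
        (cnt N (fun j => P k (e * ((⌊α * (j : ℝ) ^ c⌋₊ : ℕ) : ℤ))) : ℝ) ≤
          C' * N * (Real.log N) ^ (-δ) := by
  obtain ⟨E, hE, h⟩ := sets_dec c hc (fun (v : ι × ℤ) (t : ℕ) => P v.1 (v.2 * (t : ℤ)))
  refine ⟨E, hE, fun k C δ hδ hup e he => ⟨(2 : ℝ) ^ δ * (|C| * e.natAbs) + 1, fun α hα hαE => ?_⟩⟩
  refine h α hα hαE ⟨k, e⟩ (|C| * e.natAbs) δ (by positivity) hδ fun X hX => ?_
  have he1 : 1 ≤ e.natAbs := Int.natAbs_pos.2 he
  have hX3 : (3 : ℝ) ≤ X := by exact_mod_cast hX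
  have hlX := one_le_log3 hX
  have heX : X ≤ e.natAbs * X := Nat.le_mul_of_pos_left X he1
  have h1 := hup (e.natAbs * X) (hX.trans heX)
  have h2 : (num (fun t => P k (e * (t : ℤ))) X : ℝ) ≤
      ({d : ℤ | d.natAbs ≤ e.natAbs * X ∧ P k d}.ncard : ℝ) := by
    exact_mod_cast num_mul_le_ncard (P k) he X
  have h3 : (Real.log ((e.natAbs * X : ℕ) : ℝ)) ^ (-δ) ≤ (Real.log X) ^ (-δ) := by
    refine Real.rpow_le_rpow_of_nonpos (by linarith) ?_ (by linarith)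
    exact Real.log_le_log (by linarith) (by exact_mod_cast heX)
  have h4 : 0 ≤ (Real.log ((e.natAbs * X : ℕ) : ℝ)) ^ (-δ) :=
    Real.rpow_nonneg (Real.log_natCast_nonneg _) _
  calc (num (fun t => P k (e * (t : ℤ))) X : ℝ)
      ≤ C * ((e.natAbs * X : ℕ) : ℝ) * (Real.log ((e.natAbs * X : ℕ) : ℝ)) ^ (-δ) := h2.trans h1
    _ ≤ |C| * ((e.natAbs * X : ℕ) : ℝ) * (Real.log ((e.natAbs * X : ℕ) : ℝ)) ^ (-δ) := by
        refine mul_le_mul_of_nonneg_right ?_ h4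
        exact mul_le_mul_of_nonneg_right (le_abs_self C) (Nat.cast_nonneg _)
    _ ≤ |C| * ((e.natAbs * X : ℕ) : ℝ) * (Real.log X) ^ (-δ) :=
        mul_le_mul_of_nonneg_left h3 (by positivity)
    _ = _ := by
        push_cast
        ring

open Classical in
lemma le_add (F G : ℕ → Prop) (h : ∀ t, F t ∨ G t) (X : ℕ) : X ≤ num F X + num G X := by
  unfold num
  calc X = (Ioc 0 X).card := by rw [Nat.card_Ioc, Nat.sub_zero]
    _ ≤ ((Ioc 0 X).filter F ∪ (Ioc 0 X).filter G).card := by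
        refine Finset.card_le_card fun t ht => ?_
        rw [Finset.mem_union, Finset.mem_filter, Finset.mem_filter]
        exact (h t).imp (fun h => ⟨ht, h⟩) fun h => ⟨ht, h⟩
    _ ≤ _ := Finset.card_union_le _ _

open Classical in
lemma num_le_sum (F : ℕ → Prop) (X : ℕ) (S : Finset ℕ) (T : ℕ → Finset ℕ)
    (h : ∀ t, 0 < t → t ≤ X → F t → ∃ i ∈ S, t ∈ T i) : num F X ≤ ∑ i ∈ S, (T i).card := by
  unfold num
  refine le_trans (Finset.card_le_card fun t ht => ?_) Finset.card_biUnion_le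
  rw [Finset.mem_filter, Finset.mem_Ioc] at ht
  rw [Finset.mem_biUnion]
  exact h t ht.1.1 ht.1.2 ht.2

/-- a third of the integers are squarefree -/
lemma sqf_count (X : ℕ) : (17 / 50 : ℝ) * X ≤ (num (fun t => Squarefree t) X : ℝ) := by
  have h1 : (X : ℝ) ≤ (num (fun t => Squarefree t) X : ℝ) + (num (fun t => ¬ Squarefree t) X : ℝ) := by
    exact_mod_cast le_add (fun t : ℕ => Squarefree t) (fun t : ℕ => ¬ Squarefree t)
      (fun t => em _) X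
  have h2 : (num (fun t => ¬ Squarefree t) X : ℝ) ≤ ∑ n ∈ Icc 2 X, (X : ℝ) * (1 / (n : ℝ) ^ 2) := by
    have h3 : num (fun t => ¬ Squarefree t) X ≤
        ∑ n ∈ Icc 2 X, ((Ioc 0 X).filter (fun t => n ^ 2 ∣ t)).card := by
      refine num_le_sum _ X _ _ fun t ht0 htX h4 => ?_
      rw [Nat.squarefree_iff_prime_squarefree] at h4
      push Not at h4
      obtain ⟨p, hp, hpt⟩ := h4
      have hp2 : p ^ 2 ∣ t := by rw [pow_two]; exact hpt
      refine ⟨p, Finset.mem_Icc.2 ⟨hp.two_le, ?_⟩,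
        Finset.mem_filter.2 ⟨Finset.mem_Ioc.2 ⟨ht0, htX⟩, hp2⟩⟩
      have h5 := Nat.le_of_dvd ht0 hp2
      nlinarith [hp.two_le]
    have h4 : (num (fun t => ¬ Squarefree t) X : ℝ) ≤
        ((∑ n ∈ Icc 2 X, ((Ioc 0 X).filter (fun t => n ^ 2 ∣ t)).card : ℕ) : ℝ) := by
      exact_mod_cast h3
    refine h4.trans ?_
    push_cast
    refine Finset.sum_le_sum fun n hn => ?_
    rw [Finset.mem_Icc] at hn
    rw [Nat.Ioc_filter_dvd_card_eq_div]
    refine Nat.cast_div_le.trans (le_of_eq ?_)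
    push_cast
    ring
  have h3 : ∑ n ∈ Icc 2 X, (1 : ℝ) / (n : ℝ) ^ 2 ≤ Real.pi ^ 2 / 6 - 1 := by
    have h4 := sum_le_hasSum (insert 1 (Icc 2 X)) (fun n _ => by positivity) hasSum_zeta_two
    rw [Finset.sum_insert (by simp)] at h4
    norm_num at h4 ⊢
    linarith
  have h4 : Real.pi ^ 2 < 9.924 := by
    have := Real.pi_lt_d2
    have := Real.pi_pos
    nlinarith
  have hX0 : (0 : ℝ) ≤ X := Nat.cast_nonneg X
  rw [← Finset.mul_sum] at h2
  have h5 : (X : ℝ) * ∑ n ∈ Icc 2 X, (1 : ℝ) / (n : ℝ) ^ 2 ≤ X * (Real.pi ^ 2 / 6 - 1) :=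
    mul_le_mul_of_nonneg_left h3 hX0
  nlinarith

/-- **Squarefree terms.** -/
theorem sqf_terms (c : ℝ) (hc : 1 < c) : ∃ E : Set ℝ, dimH E < 1 ∧ ∀ α : ℝ, 0 < α → α ∉ E →
    ∃ N₀ : ℕ, ∀ N : ℕ, N₀ ≤ N →
      (N : ℝ) / 3 ≤ cnt N (fun j => Squarefree ⌊α * (j : ℝ) ^ c⌋₊) := by
  classical
  obtain ⟨κ, hκ, hκ1, h⟩ := mean2 c hc
  obtain ⟨E, hE, hlaw⟩ := h (fun (_ : Unit) t => if Squarefree t then (1 : ℝ) else 0)
  refine ⟨E, hE, fun α hα hαE => ?_⟩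
  have hgrow : ∃ C : ℝ, 0 < C ∧ ∀ m : ℕ, 1 ≤ m →
      |(if Squarefree m then (1 : ℝ) else 0)| ≤ C * (m : ℝ) ^ κ := by
    refine ⟨1, one_pos, fun m hm => ?_⟩
    have h1 : (1 : ℝ) ≤ (m : ℝ) ^ κ := Real.one_le_rpow (by exact_mod_cast hm) hκ.le
    split_ifs <;> simp <;> linarith
  obtain ⟨N0, hN0⟩ := hlaw α hα hαE () hgrow
  have hsum : ∀ X : ℕ, (17 / 50 : ℝ) * X - 0 ≤
      ∑ m ∈ Ioc 0 X, (fun t : ℕ => if Squarefree t then (1 : ℝ) else 0) m := by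
    intro X
    rw [sub_zero]
    refine (sqf_count X).trans (le_of_eq ?_)
    unfold num
    simp only
    rw [Finset.sum_boole]
    congr 2
    ext t
    simp only [Finset.mem_filter]
  obtain ⟨N1, hN1⟩ := seq_lower hα hc hκ (fun t : ℕ => if Squarefree t then (1 : ℝ) else 0) hsum N0 hN0
    (17 / 50 - 1 / 3) (by norm_num)
  refine ⟨N1, fun N hN => ?_⟩
  have h1 := hN1 N hN
  have h2 : (cnt N (fun j => Squarefree ⌊α * (j : ℝ) ^ c⌋₊) : ℝ) =
      ∑ n ∈ Icc 1 N, (fun t : ℕ => if Squarefree t then (1 : ℝ) else 0) ⌊α * (n : ℝ) ^ c⌋₊ := by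
    unfold cnt
    simp only
    rw [Finset.sum_boole]
    congr 2
    ext t
    simp only [Finset.mem_filter]
  rw [h2]
  linarith

end Pool.Agent.V11109.DEC
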