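import Mathlib
import Pool.Agent.V11109.DEC.Int

/-!
# Rare properties along the multiples of a sparse sequence
-/

set_option autoImplicit false

open Finset Filter Topology

namespace Pool.Agent.V11109.DEC

open Pool.Agent.V11109.MOM (cnt)

/-- the terms `t_j = ⌊α j ^ p⌋` of the sequence -/
noncomputable def term (p α : ℝ) (j : ℕ) : ℤ := ((⌊α * (j : ℝ) ^ p⌋₊ : ℕ) : ℤ)

/-- The property `P` of integers is rare along the sequences `e t_j`, with the exponent `δ`: for all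
nonzero integers `e` there is `C` such that for all `α > 0` outside `A₀` and all large `N` at most
`C N (log N) ^ (-δ)` of the `j ≤ N` are such that `e t_j` has the property `P`. -/
def Rare (p : ℝ) (A₀ : Set ℝ) (δ : ℝ) (P : ℤ → Prop) : Prop :=
  ∀ e : ℤ, e ≠ 0 → ∃ C : ℝ, ∀ α : ℝ, 0 < α → α ∉ A₀ → ∃ N₀ : ℕ, ∀ N : ℕ, N₀ ≤ N →
    (cnt N (fun j => P (e * term p α j)) : ℝ) ≤ C * N * (Real.log N) ^ (-δ)

/-- For all `α > 0` outside `A₀` and all large `N` at least `N / 3` of the `t_j`, `j ≤ N`, are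
squarefree. -/
def ManySquarefree (p : ℝ) (A₀ : Set ℝ) : Prop :=
  ∀ α : ℝ, 0 < α → α ∉ A₀ → ∃ N₀ : ℕ, ∀ N : ℕ, N₀ ≤ N →
    (N : ℝ) / 3 ≤ cnt N (fun j => Squarefree (term p α j))

theorem rare (p : ℝ) (hp : 1 < p) {ι : Type} [Countable ι] (P : ι → ℤ → Prop) :
    ∃ A₀ : Set ℝ, dimH A₀ < 1 ∧ ManySquarefree p A₀ ∧ ∀ (k : ι) (C δ : ℝ), 0 ≤ δ →
      (∀ X : ℕ, 3 ≤ X → ({d : ℤ | d.natAbs ≤ X ∧ P k d}.ncard : ℝ) ≤ C * X * (Real.log X) ^ (-δ)) →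
      Rare p A₀ δ (P k) := by
  obtain ⟨E₁, hE₁, h₁⟩ := int_dec p hp P
  obtain ⟨E₂, hE₂, h₂⟩ := sqf_terms p hp
  refine ⟨E₁ ∪ E₂, ?_, fun α hα hαE => ?_, fun k C δ hδ hk e he => ?_⟩
  · rw [dimH_union]
    exact max_lt hE₁ hE₂
  · obtain ⟨N₀, hN₀⟩ := h₂ α hα (fun h => hαE (Or.inr h))
    refine ⟨N₀, fun N hN => ?_⟩
    have h := hN₀ N hN
    have e : (fun j : ℕ => Squarefree ⌊α * (j : ℝ) ^ p⌋₊) = fun j => Squarefree (term p α j) := by
      funext j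
      unfold term
      exact propext Int.squarefree_natCast.symm
    rwa [e] at h
  · obtain ⟨C', hC'⟩ := h₁ k C δ hδ hk e he
    exact ⟨C', fun α hα hαE => hC' α hα (fun h => hαE (Or.inl h))⟩

/-- rare properties imply rare properties -/
lemma Rare.mono {p : ℝ} {A₀ : Set ℝ} {δ : ℝ} {P Q : ℤ → Prop} (h : Rare p A₀ δ P)
    (hQ : ∀ d, Q d → P d) : Rare p A₀ δ Q := by
  intro e he
  obtain ⟨C, hC⟩ := h e he
  refine ⟨C, fun α hα hαE => ?_⟩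
  obtain ⟨N₀, hN₀⟩ := hC α hα hαE
  refine ⟨N₀, fun N hN => le_trans ?_ (hN₀ N hN)⟩
  exact_mod_cast Pool.Agent.V11109.MOM.cnt_mono fun j _ hj => hQ _ hj

end Pool.Agent.V11109.DEC
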