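import Mathlib
import Pool.Agent.V11109.DEC.Law

/-!
# Sets of integers of density zero along the multiples of a sparse sequence
-/

set_option autoImplicit false

open Finset Filter Topology

namespace Pool.Agent.V11109.DEC

open Pool.Agent.V11109.MOM (cnt int_sets)
open Pool.Agent.Y854.GM (one_le_log3)

/-- The property `P` of integers is negligible along the sequences `e t_j`: for all nonzero integers `e`,
all `α > 0` outside `A₀`, all `ε > 0` and all large `N` at most `ε N` of the `j ≤ N` are such that `e t_j`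
has the property `P`. -/
def Negligible (p : ℝ) (A₀ : Set ℝ) (P : ℤ → Prop) : Prop :=
  ∀ e : ℤ, e ≠ 0 → ∀ α : ℝ, 0 < α → α ∉ A₀ → ∀ ε : ℝ, 0 < ε → ∃ N₀ : ℕ, ∀ N : ℕ, N₀ ≤ N →
    (cnt N (fun j => P (e * term p α j)) : ℝ) ≤ ε * N

open Classical in
lemma ncard_eq_card (P : ℤ → Prop) (X : ℕ) :
    {d : ℤ | d.natAbs ≤ X ∧ P d}.ncard = ((Icc (-(X : ℤ)) X).filter P).card := by
  rw [← Set.ncard_coe_finset]
  congr 1
  ext d
  rw [Finset.mem_coe, Finset.mem_filter, Finset.mem_Icc, Set.mem_ofPred_eq]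
  constructor
  · rintro ⟨h1, h2⟩
    exact ⟨by omega, h2⟩
  · rintro ⟨h1, h2⟩
    exact ⟨by omega, h2⟩

/-- bounds for large `X` are bounds for all `X ≥ 3` with a constant -/
lemma extend (P : ℤ → Prop) (δ : ℝ) (hδ : 0 ≤ δ)
    (h : ∃ X₀ : ℕ, ∀ X : ℕ, X₀ ≤ X →
      ({d : ℤ | d.natAbs ≤ X ∧ P d}.ncard : ℝ) ≤ X * (Real.log X) ^ (-δ)) :
    ∃ C : ℝ, ∀ X : ℕ, 3 ≤ X →
      ({d : ℤ | d.natAbs ≤ X ∧ P d}.ncard : ℝ) ≤ C * X * (Real.log X) ^ (-δ) := by
  classical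
  obtain ⟨X₀, hX₀⟩ := h
  set B : ℝ := max 1 (Real.log X₀) with hB
  have hB1 : 1 ≤ B := le_max_left _ _
  refine ⟨3 * B ^ δ, fun X hX => ?_⟩
  have hX3 : (3 : ℝ) ≤ X := by exact_mod_cast hX
  have hl := one_le_log3 hX
  have hr : 0 < (Real.log X) ^ (-δ) := Real.rpow_pos_of_pos (by linarith) _
  have hBδ : 1 ≤ B ^ δ := Real.one_le_rpow hB1 hδ
  rcases le_or_gt X₀ X with h1 | h1
  · refine (hX₀ X h1).trans ?_
    refine mul_le_mul_of_nonneg_right ?_ hr.le
    nlinarith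
  · have h2 : ({d : ℤ | d.natAbs ≤ X ∧ P d}.ncard : ℝ) ≤ 3 * X := by
      have h3 : {d : ℤ | d.natAbs ≤ X ∧ P d}.ncard ≤ 2 * X + 1 := by
        rw [ncard_eq_card]
        refine (Finset.card_filter_le _ _).trans ?_
        rw [Int.card_Icc]
        omega
      have h4 : ({d : ℤ | d.natAbs ≤ X ∧ P d}.ncard : ℝ) ≤ ((2 * X + 1 : ℕ) : ℝ) := by
        exact_mod_cast h3
      push_cast at h4
      linarith
    have h3 : Real.log X ≤ B := by
      refine le_trans ?_ (le_max_right _ _)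
      exact Real.log_le_log (by linarith) (by exact_mod_cast h1.le)
    have h4 : 1 ≤ B ^ δ * (Real.log X) ^ (-δ) := by
      have h5 : (Real.log X) ^ δ ≤ B ^ δ := Real.rpow_le_rpow (by linarith) h3 hδ
      have h6 : (Real.log X) ^ δ * (Real.log X) ^ (-δ) = 1 := by
        rw [← Real.rpow_add (by linarith)]
        simp
      nlinarith
    calc ({d : ℤ | d.natAbs ≤ X ∧ P d}.ncard : ℝ) ≤ 3 * X := h2
      _ ≤ 3 * X * (B ^ δ * (Real.log X) ^ (-δ)) := le_mul_of_one_le_right (by positivity) h4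
      _ = _ := by ring

theorem zero (p : ℝ) (hp : 1 < p) {ι : Type} [Countable ι] (P : ι → ℤ → Prop) :
    ∃ A₀ : Set ℝ, dimH A₀ < 1 ∧ ManySquarefree p A₀ ∧ ∀ k : ι,
      (∀ ε : ℝ, 0 < ε → ∃ X₀ : ℕ, ∀ X : ℕ, X₀ ≤ X →
        ({d : ℤ | d.natAbs ≤ X ∧ P k d}.ncard : ℝ) ≤ ε * X) →
      Negligible p A₀ (P k) := by
  classical
  obtain ⟨E₁, hE₁, h₁⟩ := int_sets p hp (fun v : ι × ℤ => {t : ℤ | P v.1 (v.2 * t)})
  obtain ⟨E₂, hE₂, hsq, -⟩ := rare p hp (fun (_ : Unit) (_ : ℤ) => True)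
  refine ⟨E₁ ∪ E₂, ?_, fun α hα hαE => hsq α hα fun h => hαE (Or.inr h), ?_⟩
  · rw [dimH_union]
    exact max_lt hE₁ hE₂
  intro k hk e he α hα hαE ε hε
  have he1 : 1 ≤ e.natAbs := Int.natAbs_pos.2 he
  have he1' : (1 : ℝ) ≤ e.natAbs := by exact_mod_cast he1
  obtain ⟨X₀, hX₀⟩ := hk (ε / 2 / e.natAbs) (by positivity)
  obtain ⟨N₀, hN₀⟩ := h₁ α hα (fun h => hαE (Or.inl h)) ⟨k, e⟩ (ε / 2) (ε / 2) (by positivity)
    ⟨X₀, fun X hX => by
      have hsub : ((Ioc (0 : ℤ) (0 + (X : ℤ))).filter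
          (fun t => t ∈ {t : ℤ | P k (e * t)})).card ≤
          {d : ℤ | d.natAbs ≤ e.natAbs * X ∧ P k d}.ncard := by
        have hfin : {d : ℤ | d.natAbs ≤ e.natAbs * X ∧ P k d}.Finite := by
          apply (Set.finite_Icc (-((e.natAbs * X : ℕ) : ℤ)) ((e.natAbs * X : ℕ) : ℤ)).subset
          intro d hd
          have h1 : d.natAbs ≤ e.natAbs * X := hd.1
          rw [Set.mem_Icc]
          omega
        rw [← Set.ncard_coe_finset]
        refine Set.ncard_le_ncard_of_injOn (fun t : ℤ => e * t) ?_ ?_ hfin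
        · intro t ht
          rw [Finset.mem_coe, Finset.mem_filter, Finset.mem_Ioc, Set.mem_ofPred_eq] at ht
          refine ⟨?_, ht.2⟩
          rw [Int.natAbs_mul]
          exact Nat.mul_le_mul_left _ (by omega)
        · intro a _ b _ hab
          exact mul_left_cancel₀ he hab
      have h3 := hX₀ (e.natAbs * X) (hX.trans (Nat.le_mul_of_pos_left X he1))
      have h4 : (((Ioc (0 : ℤ) (0 + (X : ℤ))).filter
          (fun t => t ∈ {t : ℤ | P k (e * t)})).card : ℝ) ≤ ε / 2 * X := by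
        have h5 : (((Ioc (0 : ℤ) (0 + (X : ℤ))).filter
            (fun t => t ∈ {t : ℤ | P k (e * t)})).card : ℝ) ≤
            ({d : ℤ | d.natAbs ≤ e.natAbs * X ∧ P k d}.ncard : ℝ) := by exact_mod_cast hsub
        refine (h5.trans h3).trans (le_of_eq ?_)
        push_cast
        field_simp
      refine le_trans (le_of_eq ?_) h4
      congr 2⟩
  refine ⟨N₀, fun N hN => ?_⟩
  have h6 := hN₀ N hN
  rw [add_halves] at h6
  exact h6

end Pool.Agent.V11109.DEC
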