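import Mathlib
import Pool.Agent.V11109.DEC.Zero

/-!
# Statements for almost all integers, with losses of logarithms or of small powers, along sparse sequences
-/

set_option autoImplicit false

open Finset Filter Topology

namespace Pool.Agent.V11109.DEC

open Pool.Agent.V11109.MOM (cnt)

/-- the terms `t_j = ⌊α j ^ p⌋` of the sequence, as natural numbers -/
noncomputable def nterm (p α : ℝ) (j : ℕ) : ℕ := ⌊α * (j : ℝ) ^ p⌋₊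

/-- For all `α > 0` outside `A₀` and all large `N` at most `η N` of the `j ≤ N` are such that `q t_j` has the
property `P`. -/
def Few (p : ℝ) (A₀ : Set ℝ) (η : ℝ) (q : ℕ) (P : ℕ → Prop) : Prop :=
  ∀ α : ℝ, 0 < α → α ∉ A₀ → ∃ N₀ : ℕ, ∀ N : ℕ, N₀ ≤ N →
    (cnt N (fun j => P (q * nterm p α j)) : ℝ) ≤ η * N

theorem few (p : ℝ) (hp : 1 < p) {ι : Type} [Countable ι] (P : ι → ℕ → Prop) :
    ∃ E : Set ℝ, dimH E < 1 ∧ ∀ k : ι, ∀ η : ℝ, 0 < η → ∀ q : ℕ, 1 ≤ q →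
      (∃ X₀ : ℕ, ∀ X : ℕ, X₀ ≤ X →
        ({n : ℕ | 1 ≤ n ∧ n ≤ X ∧ P k n}.ncard : ℝ) ≤ η / (2 * q) * X) →
      Few p E η q (P k) := by
  classical
  obtain ⟨E, hE, h⟩ := Pool.Agent.Y854.GM.sets p hp (fun v : ι × ℕ => {t : ℕ | P v.1 (v.2 * t)})
  refine ⟨E, hE, fun k η hη q hq hX α hα hαE => ?_⟩
  obtain ⟨X₀, hX₀⟩ := hX
  have hq' : (1 : ℝ) ≤ q := by exact_mod_cast hq
  obtain ⟨N₀, hN₀⟩ := (h α hα hαE ⟨k, q⟩ (η / 2) (η / 2) (by positivity)).1 ⟨X₀, fun X hX => by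
    have hsub : ((Ioc 0 X).filter (fun t => t ∈ {t : ℕ | P k (q * t)})).card ≤
        {n : ℕ | 1 ≤ n ∧ n ≤ q * X ∧ P k n}.ncard := by
      have hfin : {n : ℕ | 1 ≤ n ∧ n ≤ q * X ∧ P k n}.Finite :=
        (Set.finite_Icc 1 (q * X)).subset fun n hn => ⟨hn.1, hn.2.1⟩
      rw [← Set.ncard_coe_finset]
      refine Set.ncard_le_ncard_of_injOn (fun t : ℕ => q * t) ?_ ?_ hfin
      · intro t ht
        rw [Finset.mem_coe, Finset.mem_filter, Finset.mem_Ioc, Set.mem_ofPred_eq] at ht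
        exact ⟨Nat.mul_pos hq ht.1.1, Nat.mul_le_mul_left _ ht.1.2, ht.2⟩
      · intro a _ b _ hab
        exact Nat.eq_of_mul_eq_mul_left hq hab
    have h3 := hX₀ (q * X) (hX.trans (Nat.le_mul_of_pos_left X hq))
    have h5 : (((Ioc 0 X).filter (fun t => t ∈ {t : ℕ | P k (q * t)})).card : ℝ) ≤
        ({n : ℕ | 1 ≤ n ∧ n ≤ q * X ∧ P k n}.ncard : ℝ) := by exact_mod_cast hsub
    have h6 : (((Ioc 0 X).filter (fun t => t ∈ {t : ℕ | P k (q * t)})).card : ℝ) ≤ η / 2 * X := by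
      refine (h5.trans h3).trans (le_of_eq ?_)
      push_cast
      field_simp
    refine le_trans (le_of_eq ?_) h6
    congr 2⟩
  refine ⟨N₀, fun N hN => ?_⟩
  have h6 := hN₀ N hN
  rw [add_halves] at h6
  refine le_trans (le_of_eq ?_) h6
  unfold cnt
  congr 2

/-- `Bd m s B` is weaker for larger `B` and stronger for larger `s` -/
structure Mon (Bd : ℕ → ℕ → ℝ → Prop) : Prop where
  mono : ∀ (m s : ℕ) (B B' : ℝ), 1 ≤ B → B ≤ B' → Bd m s B → Bd m s B'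
  anti : ∀ (m s s' : ℕ) (B : ℝ), s ≤ s' → Bd m s' B → Bd m s B

lemma small_count (X : ℕ) : ({n : ℕ | 1 ≤ n ∧ n ≤ X ∧ n ^ 2 < X}.ncard : ℝ) ≤ √X := by
  have h1 : {n : ℕ | 1 ≤ n ∧ n ≤ X ∧ n ^ 2 < X}.ncard ≤ Nat.sqrt X := by
    refine (Set.ncard_le_ncard (t := Set.Icc 1 (Nat.sqrt X)) ?_ (Set.finite_Icc _ _)).trans ?_
    · rintro n ⟨h1, -, h3⟩
      exact ⟨h1, Nat.le_sqrt'.2 h3.le⟩
    · rw [← Finset.coe_Icc, Set.ncard_coe_finset, Nat.card_Icc]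
      omega
  refine (Nat.cast_le.2 h1).trans ?_
  exact Real.nat_sqrt_le_real_sqrt

lemma sqrt_small {η : ℝ} (hη : 0 < η) : ∃ X₀ : ℕ, ∀ X : ℕ, X₀ ≤ X → √(X : ℝ) ≤ η / 2 * X := by
  refine ⟨⌈(2 / η) ^ 2⌉₊, fun X hX => ?_⟩
  have h1 : (2 / η) ^ 2 ≤ X := (Nat.le_ceil _).trans (by exact_mod_cast hX)
  have h2 : 2 / η ≤ √(X : ℝ) := Real.le_sqrt_of_sq_le h1
  have h3 : √(X : ℝ) * √(X : ℝ) = X := Real.mul_self_sqrt (Nat.cast_nonneg X)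
  have h4 : 1 ≤ η / 2 * √(X : ℝ) := by
    have h5 : η / 2 * (2 / η) = 1 := by field_simp
    calc (1 : ℝ) = η / 2 * (2 / η) := h5.symm
      _ ≤ _ := by gcongr
  calc √(X : ℝ) = 1 * √(X : ℝ) := (one_mul _).symm
    _ ≤ η / 2 * √(X : ℝ) * √(X : ℝ) := by
        exact mul_le_mul_of_nonneg_right h4 (Real.sqrt_nonneg _)
    _ = _ := by rw [mul_assoc, h3]

/-- the comparison -/
lemma compare {P Q : ℕ → Prop} {X : ℕ} {η : ℝ}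
    (h : ∀ n : ℕ, 1 ≤ n → n ≤ X → X ≤ n ^ 2 → P n → Q n)
    (hQ : ({n : ℕ | 1 ≤ n ∧ n ≤ X ∧ Q n}.ncard : ℝ) ≤ η / 2 * X) (hX : √(X : ℝ) ≤ η / 2 * X) :
    ({n : ℕ | 1 ≤ n ∧ n ≤ X ∧ P n}.ncard : ℝ) ≤ η * X := by
  have hsub : {n : ℕ | 1 ≤ n ∧ n ≤ X ∧ P n} ⊆
      {n : ℕ | 1 ≤ n ∧ n ≤ X ∧ n ^ 2 < X} ∪ {n : ℕ | 1 ≤ n ∧ n ≤ X ∧ Q n} := by
    rintro n ⟨h1, h2, h3⟩
    rcases lt_or_ge (n ^ 2) X with h4 | h4
    · exact Or.inl ⟨h1, h2, h4⟩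
    · exact Or.inr ⟨h1, h2, h n h1 h2 h4 h3⟩
  have hfin : ({n : ℕ | 1 ≤ n ∧ n ≤ X ∧ n ^ 2 < X} ∪ {n : ℕ | 1 ≤ n ∧ n ≤ X ∧ Q n}).Finite :=
    ((Set.finite_Icc 1 X).subset fun n hn => ⟨hn.1, hn.2.1⟩).union
      ((Set.finite_Icc 1 X).subset fun n hn => ⟨hn.1, hn.2.1⟩)
  have h1 : ({n : ℕ | 1 ≤ n ∧ n ≤ X ∧ P n}.ncard : ℝ) ≤
      ({n : ℕ | 1 ≤ n ∧ n ≤ X ∧ n ^ 2 < X}.ncard : ℝ) + ({n : ℕ | 1 ≤ n ∧ n ≤ X ∧ Q n}.ncard : ℝ) := by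
    exact_mod_cast (Set.ncard_le_ncard hsub hfin).trans (Set.ncard_union_le _ _)
  have h2 := small_count X
  linarith

lemma two_le_log {n : ℕ} (hn : 8 ≤ n) : (2 : ℝ) ≤ Real.log n := by
  have h1 : Real.log 8 ≤ Real.log n := Real.log_le_log (by norm_num) (by exact_mod_cast hn)
  have h2 : Real.log 8 = 3 * Real.log 2 := by
    rw [show (8 : ℝ) = 2 ^ 3 by norm_num, Real.log_pow]
    norm_num
  have h3 := Real.log_two_gt_d9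
  linarith

lemma log_version {Bd : ℕ → ℕ → ℝ → Prop} (hM : Mon Bd)
    (h : ∀ η : ℝ, 0 < η → ∃ K : ℕ, ∀ x s : ℕ, 8 ≤ x → 1 ≤ s →
      ({m : ℕ | 1 ≤ m ∧ m ≤ x ∧ ¬ Bd m s ((s * Real.log x) ^ K)}.ncard : ℝ) ≤ η * x)
    {η : ℝ} (hη : 0 < η) : ∃ K : ℕ, ∀ s : ℕ, 1 ≤ s → ∃ X₀ : ℕ, ∀ X : ℕ, X₀ ≤ X →
      ({n : ℕ | 1 ≤ n ∧ n ≤ X ∧ ¬ Bd n s ((s * Real.log n) ^ K)}.ncard : ℝ) ≤ η * X := by
  obtain ⟨K, hK⟩ := h (η / 2) (by positivity)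
  obtain ⟨X₁, hX₁⟩ := sqrt_small hη
  refine ⟨2 * K, fun s hs => ⟨max X₁ 64, fun X hX => ?_⟩⟩
  have hX64 : 64 ≤ X := (le_max_right _ _).trans hX
  refine compare (Q := fun n => ¬ Bd n s ((s * Real.log X) ^ K)) ?_ (hK X s (by omega) hs)
    (hX₁ X ((le_max_left _ _).trans hX))
  intro n hn1 hn2 hn3 hP hB
  apply hP
  have hn8 : 8 ≤ n := by nlinarith
  have hlog := two_le_log hn8
  have hs' : (1 : ℝ) ≤ s := by exact_mod_cast hs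
  have hX0 : (0 : ℝ) < X := by
    have : 0 < X := by omega
    exact_mod_cast this
  have hlX : Real.log X ≤ 2 * Real.log n := by
    have h1 : Real.log X ≤ Real.log ((n : ℝ) ^ 2) := Real.log_le_log hX0 (by exact_mod_cast hn3)
    rwa [Real.log_pow] at h1
  have hlX1 : (1 : ℝ) ≤ Real.log X := by
    have := two_le_log (n := X) (by omega)
    linarith
  refine hM.mono n s _ _ ?_ ?_ hB
  · exact one_le_pow₀ (by nlinarith)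
  · rw [pow_mul]
    refine pow_le_pow_left₀ (by positivity) ?_ K
    have h2 : 2 ≤ (s : ℝ) * Real.log n := by nlinarith
    calc (s : ℝ) * Real.log X ≤ s * (2 * Real.log n) := by gcongr
      _ = 2 * (s * Real.log n) := by ring
      _ ≤ (s * Real.log n) * (s * Real.log n) := by gcongr
      _ = _ := by ring

lemma pow_version {Bd : ℕ → ℕ → ℝ → Prop} (hM : Mon Bd)
    (h : ∀ η : ℝ, 0 < η → ∃ K : ℕ, ∀ x s : ℕ, 8 ≤ x → 1 ≤ s →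
      ({m : ℕ | 1 ≤ m ∧ m ≤ x ∧ ¬ Bd m s ((s * Real.log x) ^ K)}.ncard : ℝ) ≤ η * x)
    {ε η : ℝ} (hε : 0 < ε) (hη : 0 < η) : ∃ v : ℕ, ∃ X₀ : ℕ, ∀ X : ℕ, X₀ ≤ X →
      ({n : ℕ | 1 ≤ n ∧ n ≤ X ∧
        ¬ Bd n ⌈(n : ℝ) ^ ((1 : ℝ) / (v + 1))⌉₊ ((n : ℝ) ^ ε)}.ncard : ℝ) ≤ η * X := by
  obtain ⟨K, hK⟩ := h (η / 2) (by positivity)
  obtain ⟨X₁, hX₁⟩ := sqrt_small hη
  obtain ⟨v, hv⟩ := exists_nat_one_div_lt (K := ℝ) (ε := ε / (4 * (K + 1))) (by positivity)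
  set δ : ℝ := 1 / ((v : ℝ) + 1) with hδ
  have hδ0 : 0 < δ := by positivity
  have hKδ : 2 * (2 * δ * K) ≤ ε := by
    have hK0 : (0 : ℝ) ≤ K := Nat.cast_nonneg K
    have h1 : δ * (4 * ((K : ℝ) + 1)) ≤ ε := by
      have := mul_le_mul_of_nonneg_right hv.le (by positivity : (0 : ℝ) ≤ 4 * ((K : ℝ) + 1))
      rwa [div_mul_cancel₀ _ (by positivity)] at this
    nlinarith
  have hev : ∀ᶠ x : ℝ in atTop, 2 * Real.log x ≤ x ^ δ := by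
    have h1 := (isLittleO_log_rpow_atTop hδ0).bound (c := 1 / 2) (by norm_num)
    filter_upwards [h1, eventually_ge_atTop 1] with x hx hx1
    rw [Real.norm_eq_abs, Real.norm_eq_abs, abs_of_nonneg (Real.log_nonneg hx1),
      abs_of_nonneg (Real.rpow_nonneg (by linarith) _)] at hx
    linarith
  obtain ⟨x₂, hx₂⟩ := Filter.eventually_atTop.1 hev
  refine ⟨v, max (max X₁ 64) ⌈x₂⌉₊, fun X hX => ?_⟩
  have hX64 : 64 ≤ X := (le_max_right _ _).trans ((le_max_left _ _).trans hX)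
  have hXr : (1 : ℝ) ≤ X := by
    have : 1 ≤ X := by omega
    exact_mod_cast this
  have hx2 : x₂ ≤ X := (Nat.le_ceil _).trans (by exact_mod_cast (le_max_right _ _).trans hX)
  have h2 := hx₂ X hx2
  have h3 : 1 ≤ (X : ℝ) ^ δ := Real.one_le_rpow hXr hδ0.le
  have hS1 : 1 ≤ ⌈(X : ℝ) ^ δ⌉₊ := Nat.ceil_pos.2 (by linarith)
  have hS1' : (1 : ℝ) ≤ ⌈(X : ℝ) ^ δ⌉₊ := by exact_mod_cast hS1
  have hS2 : (⌈(X : ℝ) ^ δ⌉₊ : ℝ) ≤ 2 * (X : ℝ) ^ δ := by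
    have := (Nat.ceil_lt_add_one (by positivity : (0 : ℝ) ≤ (X : ℝ) ^ δ)).le
    linarith
  have hlX := two_le_log (n := X) (by omega)
  refine compare (Q := fun n => ¬ Bd n ⌈(X : ℝ) ^ δ⌉₊ ((⌈(X : ℝ) ^ δ⌉₊ * Real.log X) ^ K)) ?_
    (hK X _ (by omega) hS1) (hX₁ X ((le_max_left _ _).trans ((le_max_left _ _).trans hX)))
  intro n hn1 hn2 hn3 hP hB
  apply hP
  have hnr : (1 : ℝ) ≤ n := by exact_mod_cast hn1
  refine hM.anti n _ ⌈(X : ℝ) ^ δ⌉₊ _ ?_ ?_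
  · exact Nat.ceil_mono (Real.rpow_le_rpow (by linarith) (by exact_mod_cast hn2) hδ0.le)
  · refine hM.mono n _ _ _ ?_ ?_ hB
    · exact one_le_pow₀ (by nlinarith)
    · have h4 : (⌈(X : ℝ) ^ δ⌉₊ : ℝ) * Real.log X ≤ (X : ℝ) ^ (2 * δ) := by
        have h5 : (X : ℝ) ^ (2 * δ) = (X : ℝ) ^ δ * (X : ℝ) ^ δ := by
          rw [← Real.rpow_add (by linarith)]
          congr 1
          ring
        rw [h5]
        calc (⌈(X : ℝ) ^ δ⌉₊ : ℝ) * Real.log X ≤ (2 * (X : ℝ) ^ δ) * Real.log X := by gcongr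
          _ = (X : ℝ) ^ δ * (2 * Real.log X) := by ring
          _ ≤ _ := by gcongr
      calc ((⌈(X : ℝ) ^ δ⌉₊ : ℝ) * Real.log X) ^ K ≤ ((X : ℝ) ^ (2 * δ)) ^ K :=
            pow_le_pow_left₀ (by positivity) h4 K
        _ = (X : ℝ) ^ (2 * δ * K) := by
            rw [Real.rpow_mul (by linarith) (2 * δ) (K : ℝ), Real.rpow_natCast]
        _ ≤ ((n : ℝ) ^ (2 : ℝ)) ^ (2 * δ * K) := by
            refine Real.rpow_le_rpow (by linarith) ?_ (by positivity)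
            rw [Real.rpow_two]
            exact_mod_cast hn3
        _ = (n : ℝ) ^ (2 * (2 * δ * K)) := by rw [← Real.rpow_mul (by linarith)]
        _ ≤ (n : ℝ) ^ ε := Real.rpow_le_rpow_of_exponent_le hnr hKδ

/-- **The transport.** -/
theorem almost (p : ℝ) (hp : 1 < p) (Bd : ℕ → ℕ → ℝ → Prop) (hM : Mon Bd)
    (h : ∀ η : ℝ, 0 < η → ∃ K : ℕ, ∀ x s : ℕ, 8 ≤ x → 1 ≤ s →
      ({m : ℕ | 1 ≤ m ∧ m ≤ x ∧ ¬ Bd m s ((s * Real.log x) ^ K)}.ncard : ℝ) ≤ η * x) :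
    ∃ A₀ : Set ℝ, dimH A₀ < 1 ∧
      (∀ η : ℝ, 0 < η → ∀ q : ℕ, 1 ≤ q → ∃ K : ℕ, ∀ s : ℕ, 1 ≤ s →
        Few p A₀ η q (fun n => ¬ Bd n s ((s * Real.log n) ^ K))) ∧
      (∀ ε η : ℝ, 0 < ε → 0 < η → ∀ q : ℕ, 1 ≤ q → ∃ δ : ℝ, 0 < δ ∧
        Few p A₀ η q (fun n => ¬ Bd n ⌈(n : ℝ) ^ δ⌉₊ ((n : ℝ) ^ ε))) := by
  obtain ⟨E₁, hE₁, h₁⟩ := few p hp
    (fun (v : ℕ × ℕ) n => ¬ Bd n v.2 ((v.2 * Real.log n) ^ v.1))
  obtain ⟨E₂, hE₂, h₂⟩ := few p hp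
    (fun (v : ℕ × ℕ) n => 1 ≤ n ∧
      ¬ Bd n ⌈(n : ℝ) ^ ((1 : ℝ) / (v.1 + 1))⌉₊ ((n : ℝ) ^ ((1 : ℝ) / (v.2 + 1))))
  obtain ⟨E₃, hE₃, h₃⟩ := few p hp (fun (_ : Unit) n => n = 0)
  refine ⟨E₁ ∪ (E₂ ∪ E₃), ?_, fun η hη q hq => ?_, fun ε η hε hη q hq => ?_⟩
  · rw [dimH_union, dimH_union]
    exact max_lt hE₁ (max_lt hE₂ hE₃)
  · obtain ⟨K, hK⟩ := log_version hM h (η := η / (2 * q)) (by positivity)
    refine ⟨K, fun s hs α hα hαE => ?_⟩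
    exact h₁ ⟨K, s⟩ η hη q hq (hK s hs) α hα (fun h => hαE (Or.inl h))
  · obtain ⟨w, hw⟩ := exists_nat_one_div_lt hε
    have hq0 : (0 : ℝ) < q := by exact_mod_cast hq
    obtain ⟨v, hv⟩ := pow_version hM h (ε := 1 / ((w : ℝ) + 1)) (η := η / 2 / (2 * q))
      (by positivity) (by positivity)
    refine ⟨1 / ((v : ℝ) + 1), by positivity, fun α hα hαE => ?_⟩
    obtain ⟨N₂, hN₂⟩ := h₂ ⟨v, w⟩ (η / 2) (by positivity) q hq (by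
      obtain ⟨X₀, hX₀⟩ := hv
      refine ⟨X₀, fun X hX => le_trans ?_ (hX₀ X hX)⟩
      have hfin : {n : ℕ | 1 ≤ n ∧ n ≤ X ∧
        ¬ Bd n ⌈(n : ℝ) ^ ((1 : ℝ) / (v + 1))⌉₊ ((n : ℝ) ^ (1 / ((w : ℝ) + 1)))}.Finite :=
        (Set.finite_Icc 1 X).subset fun n hn => ⟨hn.1, hn.2.1⟩
      have hsub : {n : ℕ | 1 ≤ n ∧ n ≤ X ∧ (1 ≤ n ∧
          ¬ Bd n ⌈(n : ℝ) ^ ((1 : ℝ) / (v + 1))⌉₊ ((n : ℝ) ^ ((1 : ℝ) / (w + 1))))} ⊆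
          {n : ℕ | 1 ≤ n ∧ n ≤ X ∧
            ¬ Bd n ⌈(n : ℝ) ^ ((1 : ℝ) / (v + 1))⌉₊ ((n : ℝ) ^ (1 / ((w : ℝ) + 1)))} :=
        fun n hn => ⟨hn.1, hn.2.1, hn.2.2.2⟩
      exact Nat.cast_le.2 (Set.ncard_le_ncard hsub hfin))
      α hα (fun h => hαE (Or.inr (Or.inl h)))
    obtain ⟨N₃, hN₃⟩ := h₃ () (η / 2) (by positivity) q hq ⟨0, fun X _ => by
      have : {n : ℕ | 1 ≤ n ∧ n ≤ X ∧ n = 0} = ∅ := by
        ext n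
        simp only [Set.mem_ofPred_eq, Set.mem_empty_iff_false, iff_false]
        omega
      rw [this, Set.ncard_empty]
      push_cast
      positivity⟩ α hα (fun h => hαE (Or.inr (Or.inr h)))
    refine ⟨max N₂ N₃, fun N hN => ?_⟩
    have h4 := hN₂ N ((le_max_left _ _).trans hN)
    have h5 := hN₃ N ((le_max_right _ _).trans hN)
    have h6 : cnt N (fun j => ¬ Bd (q * nterm p α j)
        ⌈((q * nterm p α j : ℕ) : ℝ) ^ (1 / ((v : ℝ) + 1))⌉₊ (((q * nterm p α j : ℕ) : ℝ) ^ ε)) ≤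
        cnt N (fun j => 1 ≤ q * nterm p α j ∧ ¬ Bd (q * nterm p α j)
          ⌈((q * nterm p α j : ℕ) : ℝ) ^ (1 / ((v : ℝ) + 1))⌉₊
            (((q * nterm p α j : ℕ) : ℝ) ^ ((1 : ℝ) / (w + 1)))) +
        cnt N (fun j => q * nterm p α j = 0) := by
      refine le_trans (Pool.Agent.V11109.MOM.cnt_mono fun j _ hj => ?_)
        Pool.Agent.V11109.MOM.cnt_or
      rcases Nat.eq_zero_or_pos (q * nterm p α j) with h7 | h7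
      · exact Or.inr h7
      · refine Or.inl ⟨h7, fun h8 => hj ?_⟩
        have h9 : (1 : ℝ) ≤ ((q * nterm p α j : ℕ) : ℝ) := by exact_mod_cast h7
        refine hM.mono _ _ _ _ (Real.one_le_rpow h9 (by positivity)) ?_ h8
        exact Real.rpow_le_rpow_of_exponent_le h9 hw.le
    have h7 : (cnt N (fun j => ¬ Bd (q * nterm p α j)
        ⌈((q * nterm p α j : ℕ) : ℝ) ^ (1 / ((v : ℝ) + 1))⌉₊ (((q * nterm p α j : ℕ) : ℝ) ^ ε)) : ℝ) ≤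
        (cnt N (fun j => 1 ≤ q * nterm p α j ∧ ¬ Bd (q * nterm p α j)
          ⌈((q * nterm p α j : ℕ) : ℝ) ^ (1 / ((v : ℝ) + 1))⌉₊
            (((q * nterm p α j : ℕ) : ℝ) ^ ((1 : ℝ) / (w + 1)))) : ℝ) +
        (cnt N (fun j => q * nterm p α j = 0) : ℝ) := by exact_mod_cast h6
    refine h7.trans ((add_le_add h4 h5).trans (le_of_eq ?_))
    ring

end Pool.Agent.V11109.DEC
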