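import Mathlib
import Pool.Agent.V11109.DEC.Dens

/-!
# Almost all integers have few large prime factors
-/

set_option autoImplicit false

open Finset Filter Topology

namespace Pool.Agent.V11109.DEC.Rec

/-- the sum of `1 / p` over the prime factors `p > z` of `d` -/
noncomputable def S (z : ℝ) (d : ℕ) : ℝ :=
  ∑ p ∈ d.primeFactors with z < ((p : ℕ) : ℝ), 1 / ((p : ℕ) : ℝ)

lemma S_anti {z w : ℝ} (h : w ≤ z) (d : ℕ) : S z d ≤ S w d := by
  unfold S
  refine Finset.sum_le_sum_of_subset_of_nonneg ?_ (fun _ _ _ => by positivity)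
  intro p hp
  rw [Finset.mem_filter] at hp ⊢
  exact ⟨hp.1, h.trans_lt hp.2⟩

lemma S_le {W X d : ℕ} (hd : 1 ≤ d) (hdX : d ≤ X) :
    S W d ≤ ∑ m ∈ Ioc W X, if m ∣ d then 1 / (m : ℝ) else 0 := by
  unfold S
  rw [← Finset.sum_filter]
  refine Finset.sum_le_sum_of_subset_of_nonneg ?_ (fun _ _ _ => by positivity)
  intro p hp
  rw [Finset.mem_filter] at hp ⊢
  have h1 := Nat.dvd_of_mem_primeFactors hp.1
  refine ⟨Finset.mem_Ioc.2 ⟨by exact_mod_cast hp.2, (Nat.le_of_dvd (by omega) h1).trans hdX⟩, h1⟩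

lemma sum_S {W X : ℕ} (hW : 1 ≤ W) (hWX : W ≤ X) : ∑ d ∈ Ioc 0 X, S W d ≤ X / W := by
  calc ∑ d ∈ Ioc 0 X, S W d ≤ ∑ d ∈ Ioc 0 X, ∑ m ∈ Ioc W X, (if m ∣ d then 1 / (m : ℝ) else 0) :=
        Finset.sum_le_sum fun d hd => S_le (Finset.mem_Ioc.1 hd).1 (Finset.mem_Ioc.1 hd).2
    _ = ∑ m ∈ Ioc W X, ∑ d ∈ Ioc 0 X, (if m ∣ d then 1 / (m : ℝ) else 0) := Finset.sum_comm
    _ = ∑ m ∈ Ioc W X, ((X / m : ℕ) : ℝ) * (1 / m) := by
        refine Finset.sum_congr rfl fun m _ => ?_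
        rw [← Finset.sum_filter, Finset.sum_const, nsmul_eq_mul, Nat.Ioc_filter_dvd_card_eq_div]
    _ ≤ ∑ m ∈ Ioc W X, X * ((m : ℝ) ^ 2)⁻¹ := by
        refine Finset.sum_le_sum fun m hm => ?_
        have hm1 : 0 < m := by
          have := (Finset.mem_Ioc.1 hm).1
          omega
        have hm0 : (0 : ℝ) < m := by exact_mod_cast hm1
        have h1 : ((X / m : ℕ) : ℝ) ≤ X / m := Nat.cast_div_le
        calc ((X / m : ℕ) : ℝ) * (1 / m) ≤ (X / m) * (1 / m) := by gcongr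
          _ = _ := by field_simp
    _ = X * ∑ m ∈ Ioc W X, ((m : ℝ) ^ 2)⁻¹ := by rw [Finset.mul_sum]
    _ ≤ X * ((W : ℝ)⁻¹ - (X : ℝ)⁻¹) := by
        refine mul_le_mul_of_nonneg_left ?_ (Nat.cast_nonneg X)
        exact sum_Ioc_inv_sq_le_sub (by omega) hWX
    _ ≤ X / W := by
        rw [div_eq_mul_inv]
        have : (0 : ℝ) ≤ (X : ℝ)⁻¹ := by positivity
        refine mul_le_mul_of_nonneg_left ?_ (Nat.cast_nonneg X)
        linarith

lemma S_nonneg (z : ℝ) (d : ℕ) : 0 ≤ S z d := by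
  unfold S
  exact Finset.sum_nonneg fun _ _ => by positivity

open Classical in
lemma markov {W X : ℕ} (hW : 1 ≤ W) (hWX : W ≤ X) {δ : ℝ} (hδ : 0 < δ) :
    ({n : ℕ | 1 ≤ n ∧ n ≤ X ∧ δ < S W n}.ncard : ℝ) ≤ X / W / δ := by
  have e : {n : ℕ | 1 ≤ n ∧ n ≤ X ∧ δ < S W n}.ncard =
      ((Ioc 0 X).filter (fun n => δ < S W n)).card := by
    rw [← Set.ncard_coe_finset]
    congr 1
    ext n
    rw [Finset.mem_coe, Finset.mem_filter, Finset.mem_Ioc, Set.mem_ofPred_eq]
    constructor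
    · rintro ⟨h1, h2, h3⟩
      exact ⟨⟨h1, h2⟩, h3⟩
    · rintro ⟨⟨h1, h2⟩, h3⟩
      exact ⟨h1, h2, h3⟩
  rw [e, le_div_iff₀ hδ]
  calc (((Ioc 0 X).filter (fun n => δ < S W n)).card : ℝ) * δ =
        ∑ n ∈ (Ioc 0 X).filter (fun n => δ < S W n), δ := by
        rw [Finset.sum_const, nsmul_eq_mul]
    _ ≤ ∑ n ∈ (Ioc 0 X).filter (fun n => δ < S W n), S W n :=
        Finset.sum_le_sum fun n hn => (Finset.mem_filter.1 hn).2.le
    _ ≤ ∑ n ∈ Ioc 0 X, S W n :=
        Finset.sum_le_sum_of_subset_of_nonneg (Finset.filter_subset _ _) fun _ _ _ => S_nonneg _ _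
    _ ≤ _ := sum_S hW hWX

lemma ev_y : ∀ᶠ y : ℝ in atTop,
    y ^ 3 ≤ Real.exp (y * Real.log (Real.log y) / (20 * Real.log y)) := by
  have h1 : ∀ᶠ u : ℝ in atTop, 60 * u ^ 2 ≤ Real.exp u := by
    have := (Real.isLittleO_pow_exp_atTop (n := 2)).bound (c := 1 / 60) (by norm_num)
    filter_upwards [this] with u hu
    rw [Real.norm_eq_abs, Real.norm_eq_abs, abs_of_nonneg (by positivity),
      abs_of_pos (Real.exp_pos _)] at hu
    linarith
  have h2 : ∀ᶠ u : ℝ in atTop, Real.exp 1 ≤ u := eventually_ge_atTop _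
  have h3 := Real.tendsto_log_atTop.eventually (h1.and h2)
  filter_upwards [h3, eventually_gt_atTop 0] with y hy hy0
  obtain ⟨hy1, hy2⟩ := hy
  have hu0 : 0 < Real.log y := (Real.exp_pos 1).trans_le hy2
  have hlog : 1 ≤ Real.log (Real.log y) := (Real.le_log_iff_exp_le hu0).2 hy2
  have h4 : y ^ 3 = Real.exp (3 * Real.log y) := by
    rw [show (3 : ℝ) * Real.log y = ((3 : ℕ) : ℝ) * Real.log y by norm_num, Real.exp_nat_mul,
      Real.exp_log hy0]
  rw [h4]
  apply Real.exp_le_exp.2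
  rw [le_div_iff₀ (by positivity)]
  rw [Real.exp_log hy0] at hy1
  have h5 : y * 1 ≤ y * Real.log (Real.log y) := mul_le_mul_of_nonneg_left hlog hy0.le
  nlinarith

lemma tendsto_LL : Tendsto (fun n : ℕ => Real.log (Real.log n)) atTop atTop :=
  (Real.tendsto_log_atTop.comp Real.tendsto_log_atTop).comp tendsto_natCast_atTop_atTop

/-- the bound `z(d)` -/
noncomputable def z (d : ℕ) : ℝ :=
  Real.exp (Real.log (Real.log d) * Real.log (Real.log (Real.log (Real.log d))) /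
        (20 * Real.log (Real.log (Real.log d))))

/-- if `Q` holds for all large `d` with few large prime factors then it holds for almost all `d` -/
theorem dens (Q : ℕ → Prop) (h : ∃ d₀ : ℕ, ∀ d : ℕ, d₀ ≤ d →
      S (z d) d ≤ 1 / Real.log (Real.log d) → Q d) (ε : ℝ) (hε : 0 < ε) :
    ∃ X₀ : ℕ, ∀ X : ℕ, X₀ ≤ X → ({n : ℕ | 1 ≤ n ∧ n ≤ X ∧ ¬ Q n}.ncard : ℝ) ≤ ε * X := by
  obtain ⟨d₀, hd₀⟩ := h
  obtain ⟨y₁, hy₁⟩ := Filter.eventually_atTop.1 ev_y
  obtain ⟨X₁, hX₁⟩ := sqrt_small hε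
  obtain ⟨X₂, hX₂⟩ := Filter.eventually_atTop.1
    (tendsto_LL.eventually_ge_atTop (max (2 * y₁) (max 8 (4 / ε))))
  obtain ⟨X₃, hX₃⟩ := Filter.eventually_atTop.1 (show ∀ᶠ n : ℕ in atTop,
    Real.log (Real.log n) ^ 2 ≤ n by
      have h1 := (Real.isLittleO_pow_log_id_atTop (n := 2)).bound (c := 1) (by norm_num)
      have h2 := tendsto_natCast_atTop_atTop (R := ℝ) |>.eventually h1
      filter_upwards [h2, tendsto_LL.eventually_ge_atTop 0, eventually_ge_atTop 3] with n hn hn1 hn2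
      have h3 : (3 : ℝ) ≤ n := by exact_mod_cast hn2
      have h4 : 1 ≤ Real.log n := Pool.Agent.Y854.GM.one_le_log3 hn2
      simp only [id, Real.norm_eq_abs, one_mul] at hn
      rw [abs_of_nonneg (by positivity), abs_of_nonneg (by linarith)] at hn
      refine le_trans (pow_le_pow_left₀ hn1 ?_ 2) hn
      exact (Real.log_le_sub_one_of_pos (by linarith)).trans (by linarith))
  refine ⟨max (max X₁ X₂) (max X₃ (max (d₀ ^ 2) 3)), fun X hX => ?_⟩
  have g1 : X₁ ≤ X := ((le_max_left _ _).trans (le_max_left _ _)).trans hX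
  have g2 : X₂ ≤ X := ((le_max_right _ _).trans (le_max_left _ _)).trans hX
  have g3 : X₃ ≤ X := ((le_max_left _ _).trans (le_max_right _ _)).trans hX
  have g4 : d₀ ^ 2 ≤ X :=
    ((le_max_left _ _).trans ((le_max_right _ _).trans (le_max_right _ _))).trans hX
  have g5 : 3 ≤ X := ((le_max_right _ _).trans ((le_max_right _ _).trans (le_max_right _ _))).trans hX
  set L : ℝ := Real.log (Real.log X) with hL
  have hL2 := hX₂ X g2
  have hLy : 2 * y₁ ≤ L := (le_max_left _ _).trans hL2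
  have hL8 : 8 ≤ L := ((le_max_left _ _).trans (le_max_right _ _)).trans hL2
  have hLe : 4 / ε ≤ L := ((le_max_right _ _).trans (le_max_right _ _)).trans hL2
  have hL0 : 0 < L := by linarith
  have hX0 : (3 : ℝ) ≤ X := by exact_mod_cast g5
  have hlX : 1 ≤ Real.log X := Pool.Agent.Y854.GM.one_le_log3 g5
  set W : ℕ := ⌊L ^ 2⌋₊ with hW
  have hW1 : (W : ℝ) ≤ L ^ 2 := Nat.floor_le (by positivity)
  have hW2 : L ^ 2 < W + 1 := Nat.lt_floor_add_one _
  have hW3 : L ^ 2 / 2 ≤ W := by nlinarith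
  have hWpos : (0 : ℝ) < W := lt_of_lt_of_le (by positivity) hW3
  have hW0 : 1 ≤ W := by
    have : 0 < W := by exact_mod_cast hWpos
    omega
  have hWX : W ≤ X := by
    have h1 := hX₃ X g3
    exact_mod_cast hW1.trans h1
  refine compare (Q := fun n => 1 / L < S W n) ?_ ?_ (hX₁ X g1)
  · intro n hn1 hn2 hn3 hP
    by_contra hS
    rw [not_lt] at hS
    apply hP
    have hn0 : (0 : ℝ) < n := by exact_mod_cast hn1
    have hlX2 : Real.log X ≤ 2 * Real.log n := by
      have h1 : Real.log X ≤ Real.log ((n : ℝ) ^ 2) :=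
        Real.log_le_log (by linarith) (by exact_mod_cast hn3)
      rwa [Real.log_pow] at h1
    have hln : 0 < Real.log n := by linarith
    have h2 : L / 2 ≤ Real.log (Real.log n) := by
      have h3 : Real.log (Real.log X / 2) ≤ Real.log (Real.log n) :=
        Real.log_le_log (by linarith) (by linarith)
      rw [Real.log_div (by linarith) (by norm_num)] at h3
      have h4 := Real.log_two_lt_d9
      rw [← hL] at h3
      linarith
    have h3 : Real.log (Real.log n) ≤ L :=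
      Real.log_le_log hln (Real.log_le_log hn0 (by exact_mod_cast hn2))
    have h4 := hy₁ (Real.log (Real.log n)) (by linarith)
    have h5 : (W : ℝ) ≤ z n := by
      unfold z
      refine le_trans ?_ h4
      have h6 : (L / 2) ^ 3 ≤ Real.log (Real.log n) ^ 3 :=
        pow_le_pow_left₀ (by positivity) h2 3
      have h7 : L ^ 2 ≤ (L / 2) ^ 3 := by
        have h8 : 8 * L ^ 2 ≤ L ^ 3 := by
          calc 8 * L ^ 2 ≤ L * L ^ 2 := mul_le_mul_of_nonneg_right hL8 (by positivity)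
            _ = _ := by ring
        have h9 : (L / 2) ^ 3 = L ^ 3 / 8 := by ring
        rw [h9]
        linarith
      linarith
    refine hd₀ n ?_ ?_
    · by_contra hlt
      rw [not_le] at hlt
      have : n ^ 2 < d₀ ^ 2 := Nat.pow_lt_pow_left hlt (by norm_num)
      omega
    · refine ((S_anti h5 n).trans hS).trans ?_
      exact one_div_le_one_div_of_le (by linarith) h3
  · refine (markov hW0 hWX (by positivity)).trans ?_
    rw [div_div_eq_mul_div, div_one, div_mul_eq_mul_div, div_le_iff₀ hWpos]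
    have h1 : 1 ≤ ε / 4 * L := by
      rw [div_le_iff₀ hε] at hLe
      linarith
    have h2 : L ≤ ε / 2 * (L ^ 2 / 2) := by
      calc L = 1 * L := (one_mul L).symm
        _ ≤ (ε / 4 * L) * L := mul_le_mul_of_nonneg_right h1 hL0.le
        _ = _ := by ring
    calc (X : ℝ) * L ≤ X * (ε / 2 * (L ^ 2 / 2)) := mul_le_mul_of_nonneg_left h2 (Nat.cast_nonneg X)
      _ ≤ X * (ε / 2 * W) := by gcongr
      _ = _ := by ring

end Pool.Agent.V11109.DEC.Rec
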