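import Mathlib
import Pool.Agent.V11109.DEC.Dens

/-!
# Sets of density zero along sparse sequences
-/

set_option autoImplicit false

open Filter Topology

namespace Pool.Agent.V11109.DEC

/-- a property of natural numbers of density zero holds for 0% of the terms -/
theorem few_of_tendsto (p : ℝ) (hp : 1 < p) (P : ℕ → Prop)
    (h : Tendsto (fun N : ℕ => (({n : ℕ | 1 ≤ n ∧ n ≤ N ∧ P n}.ncard : ℕ) : ℝ) / (N : ℝ))
      atTop (𝓝 0)) : ∃ A₀ : Set ℝ, dimH A₀ < 1 ∧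
    ∀ q : ℕ, 1 ≤ q → ∀ η : ℝ, 0 < η → Few p A₀ η q P := by
  obtain ⟨A₀, hA₀, hfew⟩ := few p hp (fun (_ : Unit) w => P w)
  refine ⟨A₀, hA₀, fun q hq η hη => hfew () η hη q hq ?_⟩
  have hq0 : (0 : ℝ) < q := by exact_mod_cast hq
  rw [Metric.tendsto_atTop] at h
  obtain ⟨X₀, hX₀⟩ := h (η / (2 * q)) (by positivity)
  refine ⟨max X₀ 1, fun X hX => ?_⟩
  have h1 := hX₀ X ((le_max_left _ _).trans hX)
  have hX1 : (1 : ℝ) ≤ X := by exact_mod_cast (le_max_right X₀ 1).trans hX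
  rw [Real.dist_eq, sub_zero, abs_of_nonneg (by positivity), div_lt_iff₀ (by linarith)] at h1
  exact h1.le

end Pool.Agent.V11109.DEC
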