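import Mathlib
import Pool.Agent.V11109.DEC.Dens

/-!
# Normal orders along sparse sequences
-/

set_option autoImplicit false

open Finset Filter Topology

namespace Pool.Agent.V11109.DEC.Norm

open Classical in
lemma bound_of_range (P : ℕ → Prop)
    (h : Tendsto (fun N : ℕ => (((range N).filter P).card : ℝ) / N) atTop (𝓝 0)) (ε : ℝ) (hε : 0 < ε) :
    ∃ X₀ : ℕ, ∀ X : ℕ, X₀ ≤ X → ({n : ℕ | 1 ≤ n ∧ n ≤ X ∧ P n}.ncard : ℝ) ≤ ε * X := by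
  rw [Metric.tendsto_atTop] at h
  obtain ⟨X₀, hX₀⟩ := h (ε / 2) (by positivity)
  refine ⟨max X₀ 1, fun X hX => ?_⟩
  have h1 := hX₀ (X + 1) (((le_max_left _ _).trans hX).trans (Nat.le_succ X))
  have hX1 : (1 : ℝ) ≤ X := by exact_mod_cast (le_max_right X₀ 1).trans hX
  rw [Real.dist_eq, sub_zero, abs_of_nonneg (by positivity), div_lt_iff₀ (by positivity)] at h1
  have hsub : {n : ℕ | 1 ≤ n ∧ n ≤ X ∧ P n}.ncard ≤ ((range (X + 1)).filter P).card := by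
    rw [← Set.ncard_coe_finset]
    refine Set.ncard_le_ncard ?_ (Finset.finite_toSet _)
    rintro n ⟨-, h2, h3⟩
    rw [Finset.mem_coe, Finset.mem_filter, Finset.mem_range]
    exact ⟨by omega, h3⟩
  have h2 : ({n : ℕ | 1 ≤ n ∧ n ≤ X ∧ P n}.ncard : ℝ) ≤ (((range (X + 1)).filter P).card : ℝ) := by
    exact_mod_cast hsub
  refine h2.trans (h1.le.trans ?_)
  push_cast
  nlinarith

lemma mono_few {p : ℝ} {A₀ A₁ : Set ℝ} {η : ℝ} {q : ℕ} {P Q : ℕ → Prop} (h : Few p A₀ η q P)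
    (hQ : ∀ n, Q n → P n) (hA : A₀ ⊆ A₁) : Few p A₁ η q Q := by
  intro α hα hαE
  obtain ⟨N₀, hN₀⟩ := h α hα (fun hE => hαE (hA hE))
  refine ⟨N₀, fun N hN => le_trans ?_ (hN₀ N hN)⟩
  exact_mod_cast Pool.Agent.V11109.MOM.cnt_mono fun j _ hj => hQ _ hj

open Classical in
theorem normal_order (p : ℝ) (hp : 1 < p) (f g : ℕ → ℝ)
    (hf : ∀ ε : ℝ, 0 < ε →
      Tendsto (fun N : ℕ => (((range N).filter (fun n => ε ≤ |f n|)).card : ℝ) / N) atTop (𝓝 0))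
    (hg : ∀ C : ℝ,
      Tendsto (fun N : ℕ => (((range N).filter (fun n => g n ≤ C)).card : ℝ) / N) atTop (𝓝 0)) :
    ∃ A₀ : Set ℝ, dimH A₀ < 1 ∧ ∀ q : ℕ, 1 ≤ q → ∀ η : ℝ, 0 < η →
      (∀ ε : ℝ, 0 < ε → Few p A₀ η q (fun n => ε ≤ |f n|)) ∧
      ∀ C : ℝ, Few p A₀ η q (fun n => g n ≤ C) := by
  obtain ⟨A₁, hA₁, h₁⟩ := few p hp (fun (m : ℕ) n => 1 / ((m : ℝ) + 1) ≤ |f n|)
  obtain ⟨A₂, hA₂, h₂⟩ := few p hp (fun (m : ℕ) n => g n ≤ (m : ℝ))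
  refine ⟨A₁ ∪ A₂, ?_, fun q hq η hη => ⟨fun ε hε => ?_, fun C => ?_⟩⟩
  · rw [dimH_union]
    exact max_lt hA₁ hA₂
  · have hq0 : (0 : ℝ) < q := by exact_mod_cast hq
    obtain ⟨m, hm⟩ := exists_nat_one_div_lt hε
    exact mono_few (h₁ m η hη q hq (bound_of_range (fun n => 1 / ((m : ℝ) + 1) ≤ |f n|)
      (hf _ (by positivity)) (η / (2 * q)) (by positivity))) (fun n hn => hm.le.trans hn)
      Set.subset_union_left
  · have hq0 : (0 : ℝ) < q := by exact_mod_cast hq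
    obtain ⟨m, hm⟩ := exists_nat_ge C
    exact mono_few (h₂ m η hη q hq (bound_of_range (fun n => g n ≤ (m : ℝ)) (hg _) (η / (2 * q))
      (by positivity))) (fun n hn => hn.trans hm) Set.subset_union_right

end Pool.Agent.V11109.DEC.Norm
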